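import Mathlib

/-!
# Products of independent elements of a finite abelian group, from mean square to all elements
-/

set_option autoImplicit false

namespace Pool.Agent.V1161.CGP

open Finset

section
variable {G X : Type} [CommGroup G] [Fintype G] [Fintype X] (φ : X → G)

/-- the number of the `r`-tuples with product `C` -/
noncomputable def tup (r : ℕ) (C : G) : ℕ := Nat.card {f : Fin r → X // ∏ i, φ (f i) = C}

/-- the number of `x` with `φ x = C` -/
noncomputable def one (C : G) : ℕ := Nat.card {x : X // φ x = C}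

lemma sum_one (F : G → ℝ) : ∑ x, F (φ x) = ∑ C, (one φ C : ℝ) * F C := by
  classical
  have h1 : ∀ C : G, (one φ C : ℝ) = ∑ x, if φ x = C then (1 : ℝ) else 0 := by
    intro C
    unfold one
    rw [Nat.card_eq_fintype_card, Fintype.card_subtype, Finset.card_filter]
    push_cast
    rfl
  simp_rw [h1, Finset.sum_mul]
  rw [Finset.sum_comm]
  refine Finset.sum_congr rfl fun x _ => ?_
  simp

lemma tup_succ (r : ℕ) (C : G) : (tup φ (r + 1) C : ℝ) = ∑ D, (one φ D : ℝ) * tup φ r (C * D⁻¹) := by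
  classical
  rw [← sum_one φ fun D => (tup φ r (C * D⁻¹) : ℝ)]
  unfold tup
  have e : {f : Fin (r + 1) → X // ∏ i, φ (f i) = C} ≃
      Σ x : X, {g : Fin r → X // ∏ i, φ (g i) = C * (φ x)⁻¹} := {
    toFun := fun f => ⟨f.1 0, fun i => f.1 i.succ, by
      have := f.2
      rw [Fin.prod_univ_succ] at this
      exact eq_mul_inv_of_mul_eq (by rw [mul_comm]; exact this)⟩
    invFun := fun q => ⟨Fin.cons q.1 q.2.1, by
      rw [Fin.prod_univ_succ]
      simp only [Fin.cons_zero, Fin.cons_succ]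
      rw [q.2.2, mul_comm, inv_mul_cancel_right]⟩
    left_inv := fun f => by
      apply Subtype.ext
      funext i
      refine Fin.cases ?_ (fun j => ?_) i
      · rfl
      · rfl
    right_inv := fun q => by
      obtain ⟨x, g, hg⟩ := q
      rfl }
  rw [Nat.card_congr e, Nat.card_sigma]
  push_cast
  rfl

lemma tup_zero_sum : ∑ C, (tup φ 0 C : ℝ) = 1 := by
  classical
  have h1 : ∀ C : G, (tup φ 0 C : ℝ) = if 1 = C then (1 : ℝ) else 0 := by
    intro C
    unfold tup
    rw [Nat.card_eq_fintype_card, Fintype.card_subtype]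
    simp only [Finset.univ_eq_empty, Finset.prod_empty]
    split_ifs with h
    · subst h
      simp
    · simp [h]
  simp_rw [h1]
  simp

lemma sum_shift (F : G → ℝ) (D : G) : ∑ C, F (C * D⁻¹) = ∑ C, F C :=
  Equiv.sum_comp (Equiv.mulRight D⁻¹) F

lemma sum_div (F : G → ℝ) (C : G) : ∑ D, F (C * D⁻¹) = ∑ D, F D := by
  have h := Equiv.sum_comp (Equiv.divLeft C) F
  rw [← h]
  refine Finset.sum_congr rfl fun D _ => ?_
  rw [Equiv.divLeft_apply, div_eq_mul_inv]

lemma one_sum : ∑ C, (one φ C : ℝ) = Fintype.card X := by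
  have := sum_one φ fun _ => (1 : ℝ)
  simp only [mul_one] at this
  rw [← this]
  simp

lemma tup_sum (r : ℕ) : ∑ C, (tup φ r C : ℝ) = (Fintype.card X : ℝ) ^ r := by
  induction r with
  | zero => rw [tup_zero_sum, pow_zero]
  | succ r ih =>
    simp_rw [tup_succ]
    rw [Finset.sum_comm]
    simp_rw [← Finset.mul_sum]
    have h1 : ∀ D : G, ∑ C, (tup φ r (C * D⁻¹) : ℝ) = (Fintype.card X : ℝ) ^ r := fun D => by
      rw [sum_shift (fun C => (tup φ r C : ℝ)) D, ih]
    simp_rw [h1]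
    rw [← Finset.sum_mul, one_sum, pow_succ, mul_comm]

lemma tup_one (C : G) : tup φ 1 C = one φ C := by
  unfold tup one
  refine Nat.card_congr ⟨fun f => ⟨f.1 0, ?_⟩, fun x => ⟨fun _ => x.1, ?_⟩, fun f => ?_, fun x => ?_⟩
  · simpa using f.2
  · simpa using x.2
  · apply Subtype.ext
    funext i
    rw [Subsingleton.elim i 0]
  · rfl

/-- the deviation of the distribution of the product from the uniform distribution -/
theorem deviation {δ : ℝ} (hX : 0 < Fintype.card X)
    (hq : ∑ C, ((one φ C : ℝ) / Fintype.card X - 1 / Fintype.card G) ^ 2 ≤ δ ^ 2 / Fintype.card G)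
    (hδ : 0 ≤ δ) :
    (∑ C, |(one φ C : ℝ) / Fintype.card X - 1 / Fintype.card G| ≤ δ) ∧
    ∀ r : ℕ, 2 ≤ r → ∀ C, |(tup φ r C : ℝ) / (Fintype.card X : ℝ) ^ r - 1 / Fintype.card G| ≤
      δ ^ r / Fintype.card G := by
  classical
  obtain ⟨h, hh⟩ : ∃ h : ℝ, h = Fintype.card G := ⟨_, rfl⟩
  obtain ⟨T, hT⟩ : ∃ T : ℝ, T = Fintype.card X := ⟨_, rfl⟩
  have hT0 : 0 < T := by rw [hT]; exact_mod_cast hX
  have hh0 : 0 < h := by rw [hh]; exact_mod_cast Fintype.card_pos
  obtain ⟨q, hqd⟩ : ∃ q : ℕ → G → ℝ, q = fun r C => (tup φ r C : ℝ) / T ^ r - 1 / h := ⟨_, rfl⟩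
  have hq1 : ∀ C, (one φ C : ℝ) / T - 1 / h = q 1 C := fun C => by
    rw [hqd]; simp only; rw [tup_one, pow_one]
  rw [← hh, ← hT] at hq
  simp_rw [hq1] at hq
  have hsum : ∀ r, ∑ C, q r C = 0 := by
    intro r
    rw [hqd]
    simp only
    rw [Finset.sum_sub_distrib, ← Finset.sum_div, tup_sum, ← hT, Finset.sum_const, Finset.card_univ,
      nsmul_eq_mul, ← hh, div_self (pow_ne_zero _ hT0.ne'), mul_one_div_cancel hh0.ne', sub_self]
  have hrec : ∀ r C, q (r + 1) C = ∑ D, q 1 D * q r (C * D⁻¹) := by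
    intro r C
    have h1 : (tup φ (r + 1) C : ℝ) / T ^ (r + 1) = ∑ D, (q 1 D + 1 / h) * (q r (C * D⁻¹) + 1 / h) := by
      rw [tup_succ, Finset.sum_div]
      refine Finset.sum_congr rfl fun D _ => ?_
      have e1 : q 1 D + 1 / h = (one φ D : ℝ) / T := by rw [← hq1]; ring
      have e2 : q r (C * D⁻¹) + 1 / h = (tup φ r (C * D⁻¹) : ℝ) / T ^ r := by rw [hqd]; simp only; ring
      rw [e1, e2, pow_succ]
      field_simp
    have h2 : ∑ D, (q 1 D + 1 / h) * (q r (C * D⁻¹) + 1 / h) =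
        ∑ D, q 1 D * q r (C * D⁻¹) + (∑ D, q 1 D) * (1 / h) + (1 / h) * (∑ D, q r (C * D⁻¹)) +
          h * (1 / h * (1 / h)) := by
      rw [Finset.sum_mul, Finset.mul_sum, ← Finset.sum_add_distrib, ← Finset.sum_add_distrib]
      have e3 : h * (1 / h * (1 / h)) = ∑ _D : G, (1 / h * (1 / h)) := by
        rw [Finset.sum_const, Finset.card_univ, nsmul_eq_mul, ← hh]
      rw [e3, ← Finset.sum_add_distrib]
      exact Finset.sum_congr rfl fun D _ => by ring
    have h3 : q (r + 1) C = (tup φ (r + 1) C : ℝ) / T ^ (r + 1) - 1 / h := by rw [hqd]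
    rw [h3, h1, h2, hsum, sum_div (fun D => q r D) C, hsum]
    field_simp
    ring
  have hL1 : ∑ C, |q 1 C| ≤ δ := by
    have h1 : (∑ C, |q 1 C|) ^ 2 ≤ h * ∑ C, |q 1 C| ^ 2 := by
      have := sq_sum_le_card_mul_sum_sq (s := (Finset.univ : Finset G)) (f := fun C => |q 1 C|)
      rw [Finset.card_univ, ← hh] at this
      exact this
    simp_rw [sq_abs] at h1
    have h2 : h * ∑ C, q 1 C ^ 2 ≤ δ ^ 2 := by
      have := mul_le_mul_of_nonneg_left hq hh0.le
      rwa [mul_div_cancel₀ _ hh0.ne'] at this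
    exact abs_le_of_sq_le_sq' (h1.trans h2) hδ |>.2
  have hmain : ∀ r, 2 ≤ r → ∀ C, |q r C| ≤ δ ^ r / h := by
    intro r hr
    induction r, hr using Nat.le_induction with
    | base =>
      intro C
      rw [hrec 1 C]
      refine (Finset.abs_sum_le_sum_abs _ _).trans ?_
      have h1 : ∀ D ∈ (Finset.univ : Finset G), |q 1 D * q 1 (C * D⁻¹)| ≤
          1 / 2 * q 1 D ^ 2 + 1 / 2 * q 1 (C * D⁻¹) ^ 2 := by
        intro D _
        rw [abs_le]
        constructor
        · nlinarith [sq_nonneg (q 1 D + q 1 (C * D⁻¹))]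
        · nlinarith [sq_nonneg (q 1 D - q 1 (C * D⁻¹))]
      refine (Finset.sum_le_sum h1).trans ?_
      rw [Finset.sum_add_distrib, ← Finset.mul_sum, ← Finset.mul_sum,
        sum_div (fun D => q 1 D ^ 2) C]
      linarith
    | succ r hr ih =>
      intro C
      rw [hrec r C]
      refine (Finset.abs_sum_le_sum_abs _ _).trans ?_
      have h1 : ∀ D ∈ (Finset.univ : Finset G), |q 1 D * q r (C * D⁻¹)| ≤ |q 1 D| * (δ ^ r / h) := by
        intro D _
        rw [abs_mul]
        exact mul_le_mul_of_nonneg_left (ih _) (abs_nonneg _)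
      refine (Finset.sum_le_sum h1).trans ?_
      rw [← Finset.sum_mul, pow_succ]
      have h2 := mul_le_mul_of_nonneg_right hL1 (show 0 ≤ δ ^ r / h by positivity)
      refine h2.trans (le_of_eq ?_)
      ring
  constructor
  · rw [← hh, ← hT]
    simp_rw [hq1]
    exact hL1
  · intro r hr C
    have := hmain r hr C
    rw [hqd] at this
    rw [← hh, ← hT]
    exact this

end

end Pool.Agent.V1161.CGP
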